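import Mathlib

/-!
# Three-heap Blocking Nim with a block on every heap

The `𝒫`-positions are exactly the positions with `⌊x₁/2⌋ ⊕ ⌊x₂/2⌋ ⊕ ⌊x₃/2⌋ = 0`; the blocker
wins by always forbidding the removal of exactly one counter from each heap.
-/

namespace Pool.Agent.Results.MP_7e332b_co.BlockAllHeaps

/-- `IsP p`: the player who is about to announce a block in the position `p` (three heaps of
sizes `p 0, p 1, p 2`) wins.  He announces a block `a` on all three heaps, a positive integer for
each heap; the opponent then removes `r` counters from a heap `i`, where `0 < r ≤ p i` and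
`r ≠ a i` (a player who cannot do this loses), and becomes the next player to announce a block.
The blocker wins when some block makes every such move lead to a position in which the opponent,
who is now about to announce a block, does not win. -/
def IsP (p : Fin 3 → ℕ) : Prop :=
  ∃ a : Fin 3 → ℕ, (∀ i, 0 < a i) ∧
    ∀ (i : Fin 3) (r : ℕ) (_ : 0 < r) (_ : r ≤ p i), r ≠ a i →
      ¬ IsP (Function.update p i (p i - r))
termination_by ∑ i, p i
decreasing_by
  refine Finset.sum_lt_sum (fun j _ => ?_) ⟨i, Finset.mem_univ _, ?_⟩
  · by_cases h : j = i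
    · subst h; simp
    · simp [h]
  · simp; omega

/-- the exclusive or of the three halved heap sizes -/
def halfXor (p : Fin 3 → ℕ) : ℕ := (p 0 / 2) ^^^ (p 1 / 2) ^^^ (p 2 / 2)

theorem isP_iff_aux (n : ℕ) : ∀ p : Fin 3 → ℕ, ∑ i, p i = n → (IsP p ↔ halfXor p = 0) := by
  induction n using Nat.strong_induction_on with
  | _ n ih =>
  intro p hp
  have hsum : ∀ (i : Fin 3) (r : ℕ), 0 < r → r ≤ p i →
      ∑ j, Function.update p i (p i - r) j < n := by
    intro i r h1 h2
    rw [← hp]
    refine Finset.sum_lt_sum (fun j _ => ?_) ⟨i, Finset.mem_univ _, ?_⟩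
    · by_cases h : j = i
      · subst h; simp
      · simp [h]
    · simp; omega
  have hih : ∀ (i : Fin 3) (r : ℕ), 0 < r → r ≤ p i →
      (IsP (Function.update p i (p i - r)) ↔ halfXor (Function.update p i (p i - r)) = 0) :=
    fun i r h1 h2 => ih _ (hsum i r h1 h2) _ rfl
  constructor
  · intro h
    by_contra hne
    rw [IsP] at h
    obtain ⟨a, -, ha⟩ := h
    -- a winning move on heap `i` to one of the two positions with halved size `t`
    have key : ∀ (i : Fin 3) (t : ℕ), t < p i / 2 →
        (∀ s, s / 2 = t → halfXor (Function.update p i s) = 0) → False := by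
      intro i t ht hs
      by_cases hb : p i - 2 * t = a i
      · have h1 := ha i (p i - (2 * t + 1)) (by omega) (by omega) (by omega)
        rw [hih i _ (by omega) (by omega)] at h1
        exact h1 (hs _ (by omega))
      · have h1 := ha i (p i - 2 * t) (by omega) (by omega) hb
        rw [hih i _ (by omega) (by omega)] at h1
        exact h1 (hs _ (by omega))
    rcases Nat.xor_trichotomy (a := p 0 / 2) (b := p 1 / 2) (c := p 2 / 2) hne with h | h | h
    · refine key 0 _ h fun s hs => ?_
      simp [halfXor, hs]
    · refine key 1 _ h fun s hs => ?_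
      simp only [halfXor]
      rw [show Function.update p 1 s 0 = p 0 from by simp,
        show Function.update p 1 s 1 = s from by simp,
        show Function.update p 1 s 2 = p 2 from by simp, hs]
      rw [Nat.xor_comm (p 2 / 2) (p 0 / 2), ← Nat.xor_assoc (p 0 / 2), Nat.xor_self,
        Nat.zero_xor, Nat.xor_self]
    · refine key 2 _ h fun s hs => ?_
      simp only [halfXor]
      rw [show Function.update p 2 s 0 = p 0 from by simp,
        show Function.update p 2 s 1 = p 1 from by simp,
        show Function.update p 2 s 2 = s from by simp, hs, Nat.xor_self]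
  · intro h0
    rw [IsP]
    refine ⟨fun _ => 1, fun _ => Nat.one_pos, fun i r h1 h2 hr => ?_⟩
    rw [hih i r h1 h2]
    intro h3
    have hr2 : 2 ≤ r := by
      have : r ≠ 1 := hr
      omega
    have hlt : (p i - r) / 2 < p i / 2 := by omega
    have hcancel : (p i - r) / 2 = p i / 2 := by
      have h4 : halfXor (Function.update p i (p i - r)) = halfXor p := by rw [h3, h0]
      simp only [halfXor] at h4
      fin_cases i
      · simpa using h4
      · simpa using h4
      · simpa using h4
    omega

/-- Answer to Q2 of MP_7e332b_co: in three-heap Blocking Nim in which each block is placed on all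
three heaps, the `𝒫`-positions are exactly the positions `(x₁, x₂, x₃)` with
`⌊x₁/2⌋ ⊕ ⌊x₂/2⌋ ⊕ ⌊x₃/2⌋ = 0`. -/
theorem result (x₁ x₂ x₃ : ℕ) :
    IsP ![x₁, x₂, x₃] ↔ (x₁ / 2) ^^^ (x₂ / 2) ^^^ (x₃ / 2) = 0 :=
  isP_iff_aux _ _ rfl

end Pool.Agent.Results.MP_7e332b_co.BlockAllHeaps
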